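import Mathlib

/-!
# MP_3e1131_co: the generalized van der Waerden game is won in a number of moves depending on `|S|`

The Hales-Jewett cube over an alphabet of `n` letters is mapped to the natural numbers by
`x ↦ ∑ i, s (x i)`; lines go to copies `a S + b`.  Every partition of the image of the cube into two
parts has a copy of `S` inside of one part, so that (strategy stealing) Maker wins the game played on
the image, which has at most `n ^ HJ(n)` members; moves of Breaker outside of the image are lost tempi.
-/

open Finset

namespace Pool.Agent.Results.MP_3e1131_co.BoundedMaker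

/-- the finite set `A` contains a copy `a S + b` of `S`, with an integer `a ≥ 1` and an integer `b` -/
def Copy (S A : Finset ℕ) : Prop :=
  ∃ a : ℕ, 1 ≤ a ∧ ∃ b : ℤ, ∀ s ∈ S, ∃ x ∈ A, (x : ℤ) = a * s + b

/-- A strategy of Maker is a function `σ` of the list of the numbers which Breaker has claimed so
far.  If Breaker claims `y 0, y 1, ...` then `maker σ y i` is the number claimed by Maker on his move
number `i = 0, 1, ...` (before Breaker claims `y i`). -/
def maker (σ : List ℕ → ℕ) (y : ℕ → ℕ) (i : ℕ) : ℕ := σ ((List.range i).map y)

/-- Maker has an `N`-move strategy for `S`: for every play `y` of Breaker (with legal moves) the numbers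
claimed by Maker are, up to some move `k ≤ N`, unclaimed before, and contain a copy of `S`. -/
def HasStrategy (S : Finset ℕ) (N : ℕ) : Prop :=
  ∃ σ : List ℕ → ℕ, ∀ y : ℕ → ℕ,
    (∀ i < N, (∀ j ≤ i, y i ≠ maker σ y j) ∧ ∀ j < i, y i ≠ y j) →
    ∃ k ≤ N, (∀ i < k, ∀ j < i, maker σ y i ≠ maker σ y j ∧ maker σ y i ≠ y j) ∧
      Copy S ((range k).image (maker σ y))

lemma Copy.mono {S A B : Finset ℕ} (h : Copy S A) (hAB : A ⊆ B) : Copy S B := by
  obtain ⟨a, ha, b, h⟩ := h
  refine ⟨a, ha, b, fun s hs => ?_⟩
  obtain ⟨x, hx, e⟩ := h s hs
  exact ⟨x, hAB hx, e⟩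

section Board

variable (S X : Finset ℕ)

/-- the free cells of the board -/
def free (M B : Finset ℕ) : Finset ℕ := X \ (M ∪ B)

/-- `F k t M B`: Maker wins the game on the board `X` when `k` is (at least) the number of the free
cells; `t = true` if Maker is to move. -/
def F : ℕ → Bool → Finset ℕ → Finset ℕ → Prop
  | 0, _, M, _ => Copy S M
  | k + 1, true, M, B => Copy S M ∨ ∃ x ∈ free X M B, F k false (insert x M) B
  | k + 1, false, M, B => Copy S M ∨ ((free X M B).Nonempty ∧ ∀ y ∈ free X M B, F k true M (insert y B))

variable {S X}

lemma F_copy {k : ℕ} {t : Bool} {M B : Finset ℕ} (h : Copy S M) : F S X k t M B := by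
  cases k with
  | zero => exact h
  | succ k => cases t <;> exact Or.inl h

lemma free_insert_left {M B : Finset ℕ} {x : ℕ} : free X (insert x M) B = (free X M B).erase x := by
  ext z
  simp only [free, mem_sdiff, mem_union, mem_insert, mem_erase, not_or]
  tauto

lemma free_insert_right {M B : Finset ℕ} {x : ℕ} : free X M (insert x B) = (free X M B).erase x := by
  ext z
  simp only [free, mem_sdiff, mem_union, mem_insert, mem_erase, not_or]
  tauto

/-- monotonicity and the advantage of the move -/
lemma main_mono : ∀ k : ℕ, ∀ M B : Finset ℕ, (free X M B).card = k →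
    (∀ x ∈ free X M B, F S X k true M B → F S X (k - 1) true (insert x M) B) ∧
    (∀ x ∈ free X M B, F S X k false M B → F S X (k - 1) false (insert x M) B) ∧
    (F S X k false M B → F S X k true M B) := by
  intro k
  induction k with
  | zero =>
    intro M B hk
    have h0 : free X M B = ∅ := card_eq_zero.1 hk
    refine ⟨fun x hx => ?_, fun x hx => ?_, fun h => h⟩
    · rw [h0] at hx; exact absurd hx (notMem_empty _)
    · rw [h0] at hx; exact absurd hx (notMem_empty _)
  | succ k ih =>
    intro M B hk
    have hleft : ∀ z ∈ free X M B, (free X (insert z M) B).card = k := by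
      intro z hz
      rw [free_insert_left, card_erase_of_mem hz, hk]; rfl
    have hright : ∀ z ∈ free X M B, (free X M (insert z B)).card = k := by
      intro z hz
      rw [free_insert_right, card_erase_of_mem hz, hk]; rfl
    have hb : ∀ x ∈ free X M B, F S X (k + 1) false M B → F S X (k + 1 - 1) false (insert x M) B := by
      intro x hx h
      rw [Nat.add_sub_cancel]
      rcases h with h | ⟨-, h⟩
      · exact F_copy (h.mono (subset_insert _ _))
      · cases k with
        | zero =>
          have := h x hx
          exact Copy.mono (this : Copy S M) (subset_insert _ _)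
        | succ k =>
          right
          have hc := hleft x hx
          refine ⟨card_pos.1 (by omega), fun y hy => ?_⟩
          have hy' : y ∈ free X M B ∧ y ≠ x := by
            rw [free_insert_left, mem_erase] at hy
            exact ⟨hy.2, hy.1⟩
          have h1 := (ih M (insert y B) (hright y hy'.1)).1 x (by
            rw [free_insert_right, mem_erase]; exact ⟨fun e => hy'.2 e.symm, hx⟩) (h y hy'.1)
          rwa [Nat.add_sub_cancel] at h1
    refine ⟨?_, hb, ?_⟩
    · intro x hx h
      rw [Nat.add_sub_cancel]
      rcases h with h | ⟨z, hz, h⟩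
      · exact F_copy (h.mono (subset_insert _ _))
      · by_cases hzx : z = x
        · subst hzx
          exact (ih (insert z M) B (hleft z hz)).2.2 h
        · have hx' : x ∈ free X (insert z M) B := by
            rw [free_insert_left, mem_erase]; exact ⟨fun e => hzx e.symm, hx⟩
          have hz' : z ∈ free X (insert x M) B := by
            rw [free_insert_left, mem_erase]; exact ⟨hzx, hz⟩
          have h1 := (ih (insert z M) B (hleft z hz)).2.1 x hx' h
          cases k with
          | zero =>
            have := hleft z hz
            rw [card_eq_zero] at this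
            rw [this] at hx'
            exact absurd hx' (notMem_empty _)
          | succ k =>
            rw [Nat.add_sub_cancel] at h1
            right
            exact ⟨z, hz', by rwa [Finset.insert_comm] at h1⟩
    · intro h
      rcases h with h' | ⟨hne, h'⟩
      · exact Or.inl h'
      · obtain ⟨x, hx⟩ := hne
        right
        refine ⟨x, hx, ?_⟩
        have := hb x hx (Or.inr ⟨⟨x, hx⟩, h'⟩)
        rwa [Nat.add_sub_cancel] at this

/-- strategy stealing: if every partition of the board has a winning part then the player who is to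
move and who could also defend as the second player cannot be stopped -/
lemma steal (hX : ∀ M ⊆ X, Copy S M ∨ Copy S (X \ M)) :
    ∀ k : ℕ, ∀ M B : Finset ℕ, M ⊆ X → B ⊆ X → Disjoint M B → (free X M B).card = k →
      F S X k true M B ∨ F S X k false B M := by
  intro k
  induction k using Nat.strong_induction_on with
  | _ k ih =>
    intro M B hM hB hd hk
    have hcomm : free X B M = free X M B := by unfold free; rw [union_comm]
    by_contra hcon
    push Not at hcon
    obtain ⟨h1, h2⟩ := hcon
    cases k with
    | zero =>
      have h0 : free X M B = ∅ := card_eq_zero.1 hk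
      have hXB : X \ M ⊆ B := by
        intro z hz
        by_contra hzB
        have : z ∈ free X M B := by
          simp only [free, mem_sdiff, mem_union, not_or] at hz ⊢
          exact ⟨hz.1, hz.2, hzB⟩
        rw [h0] at this
        exact absurd this (notMem_empty _)
      rcases hX M hM with h | h
      · exact h1 h
      · exact h2 (h.mono hXB)
    | succ k =>
      have hne : (free X M B).Nonempty := card_pos.1 (by omega)
      have h1' : ¬ Copy S M ∧ ∀ x ∈ free X M B, ¬ F S X k false (insert x M) B := by
        refine ⟨fun h => h1 (Or.inl h), fun x hx h => h1 (Or.inr ⟨x, hx, h⟩)⟩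
      have h2' : ¬ Copy S B ∧ ∃ x ∈ free X M B, ¬ F S X k true B (insert x M) := by
        refine ⟨fun h => h2 (Or.inl h), ?_⟩
        by_contra hno
        push Not at hno
        exact h2 (Or.inr ⟨by rw [hcomm]; exact hne, fun y hy => hno y (by rwa [hcomm] at hy)⟩)
      obtain ⟨x, hx, hx2⟩ := h2'.2
      have hxX : x ∈ X ∧ x ∉ M ∧ x ∉ B := by
        simpa only [free, mem_sdiff, mem_union, not_or] using hx
      have hc : (free X B (insert x M)).card = k := by
        rw [free_insert_right, hcomm, card_erase_of_mem hx, hk]; rfl
      rcases ih k (by omega) B (insert x M) hB (insert_subset hxX.1 hM)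
        (by rw [disjoint_insert_right]; exact ⟨hxX.2.2, hd.symm⟩) hc with h | h
      · exact hx2 h
      · exact h1'.2 x hx h

/-- Maker wins on a board without a balanced partition. -/
lemma first (hX : ∀ M ⊆ X, Copy S M ∨ Copy S (X \ M)) : F S X X.card true ∅ ∅ := by
  have hc : (free X ∅ ∅).card = X.card := by simp [free]
  rcases steal hX X.card ∅ ∅ (empty_subset _) (empty_subset _) (disjoint_empty_left _) hc with h | h
  · exact h
  · exact (main_mono X.card ∅ ∅ hc).2.2 h

/-- the game on all natural numbers, by recursion on the number of the remaining moves -/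
def W (S : Finset ℕ) : ℕ → Finset ℕ → Finset ℕ → Prop
  | 0, M, _ => Copy S M
  | N + 1, M, B => Copy S M ∨ ∃ x, x ∉ M ∧ x ∉ B ∧
      ∀ y, y ∉ insert x M → y ∉ B → W S N (insert x M) (insert y B)

lemma W_copy {N : ℕ} {M B : Finset ℕ} (h : Copy S M) : W S N M B := by
  cases N with
  | zero => exact h
  | succ N => exact Or.inl h

/-- from the board to the natural numbers -/
lemma F_to_W : ∀ k : ℕ, ∀ N : ℕ, k ≤ N → ∀ M B B' : Finset ℕ, (free X M B).card = k →
    B' ∩ X ⊆ B → B ⊆ B' → F S X k true M B → W S N M B' := by
  intro k
  induction k using Nat.strong_induction_on with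
  | _ k ih =>
    intro N hN M B B' hk hB1 hB2 h
    cases k with
    | zero => exact W_copy (h : Copy S M)
    | succ k =>
      obtain ⟨N, rfl⟩ : ∃ N', N = N' + 1 := ⟨N - 1, by omega⟩
      rcases h with h | ⟨x, hx, h⟩
      · exact Or.inl h
      · right
        have hxX : x ∈ X ∧ x ∉ M ∧ x ∉ B := by
          simpa only [free, mem_sdiff, mem_union, not_or] using hx
        have hcl : (free X (insert x M) B).card = k := by
          rw [free_insert_left, card_erase_of_mem hx, hk]; rfl
        refine ⟨x, hxX.2.1, fun hxB' => hxX.2.2 (hB1 (mem_inter.2 ⟨hxB', hxX.1⟩)),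
          fun y hy1 hy2 => ?_⟩
        by_cases hyX : y ∈ X
        · -- Breaker plays on the board
          have hy : y ∈ free X (insert x M) B := by
            simp only [free, mem_sdiff, mem_union, not_or]
            exact ⟨hyX, hy1, fun hyB => hy2 (hB2 hyB)⟩
          cases k with
          | zero =>
            exfalso
            rw [card_eq_zero] at hcl
            rw [hcl] at hy
            exact absurd hy (notMem_empty _)
          | succ k =>
            rcases h with h | ⟨-, h⟩
            · exact W_copy h
            · have hcr : (free X (insert x M) (insert y B)).card = k := by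
                rw [free_insert_right, card_erase_of_mem hy, hcl]; rfl
              refine ih k (by omega) N (by omega) (insert x M) (insert y B) (insert y B') hcr ?_
                (insert_subset_insert _ hB2) (h y hy)
              intro z hz
              rw [mem_inter, mem_insert] at hz
              rw [mem_insert]
              rcases hz.1 with rfl | hz1
              · exact Or.inl rfl
              · exact Or.inr (hB1 (mem_inter.2 ⟨hz1, hz.2⟩))
        · have h1 := (main_mono k (insert x M) B hcl).2.2 h
          refine ih k (by omega) N (by omega) (insert x M) B (insert y B') hcl ?_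
            (hB2.trans (subset_insert _ _)) h1
          intro z hz
          rw [mem_inter, mem_insert] at hz
          rcases hz.1 with rfl | hz1
          · exact absurd hz.2 hyX
          · exact hB1 (mem_inter.2 ⟨hz1, hz.2⟩)

end Board

/-- from the recursive description of the game to explicit strategies -/
lemma W_strategy {S : Finset ℕ} : ∀ N : ℕ, ∀ M B : Finset ℕ, W S N M B →
    ∃ σ : List ℕ → ℕ, ∀ y : ℕ → ℕ,
      (∀ i < N, y i ∉ M ∧ y i ∉ B ∧ (∀ j ≤ i, y i ≠ maker σ y j) ∧ ∀ j < i, y i ≠ y j) →
      ∃ k ≤ N, (∀ i < k, maker σ y i ∉ M ∧ maker σ y i ∉ B ∧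
        ∀ j < i, maker σ y i ≠ maker σ y j ∧ maker σ y i ≠ y j) ∧
        Copy S (M ∪ (range k).image (maker σ y)) := by
  intro N
  induction N with
  | zero =>
    intro M B h
    refine ⟨fun _ => 0, fun y _ => ⟨0, le_refl _, fun i hi => absurd hi (Nat.not_lt_zero _), ?_⟩⟩
    have h' : Copy S M := h
    simpa using h'
  | succ N ih =>
    intro M B h
    rcases h with h | ⟨x, hxM, hxB, h⟩
    · refine ⟨fun _ => 0, fun y _ => ⟨0, Nat.zero_le _, fun i hi => absurd hi (Nat.not_lt_zero _), ?_⟩⟩
      simpa using h
    · classical
      choose! τ hτ using fun y (hy : y ∉ insert x M ∧ y ∉ B) =>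
        ih (insert x M) (insert y B) (h y hy.1 hy.2)
      let σ : List ℕ → ℕ := fun l => match l with
        | [] => x
        | z :: t => τ z t
      have hσ0 : ∀ y : ℕ → ℕ, maker σ y 0 = x := fun y => rfl
      have hσs : ∀ (y : ℕ → ℕ) (i : ℕ), maker σ y (i + 1) = maker (τ (y 0)) (fun j => y (j + 1)) i := by
        intro y i
        unfold maker
        rw [List.range_succ_eq_map, List.map_cons, List.map_map]
        rfl
      refine ⟨σ, fun y hy => ?_⟩
      have hy0 := hy 0 (Nat.succ_pos _)
      have hy0x : y 0 ≠ x := by
        have := hy0.2.2.1 0 (le_refl _)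
        rwa [hσ0] at this
      have hy0M : y 0 ∉ insert x M ∧ y 0 ∉ B := by
        refine ⟨fun hm => ?_, hy0.2.1⟩
        rcases mem_insert.1 hm with hm | hm
        · exact hy0x hm
        · exact hy0.1 hm
      obtain ⟨k, hkN, hleg, hcopy⟩ := hτ (y 0) hy0M (fun j => y (j + 1)) (by
        intro i hi
        have hyi := hy (i + 1) (by omega)
        refine ⟨?_, ?_, ?_, ?_⟩
        · intro hm
          rcases mem_insert.1 hm with hm | hm
          · have := hyi.2.2.1 0 (Nat.zero_le _)
            rw [hσ0] at this
            exact this hm
          · exact hyi.1 hm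
        · intro hm
          rcases mem_insert.1 hm with hm | hm
          · exact hyi.2.2.2 0 (Nat.succ_pos _) hm
          · exact hyi.2.1 hm
        · intro j hj
          have := hyi.2.2.1 (j + 1) (by omega)
          rwa [hσs] at this
        · intro j hj
          exact hyi.2.2.2 (j + 1) (by omega))
      refine ⟨k + 1, by omega, ?_, ?_⟩
      · intro i hi
        cases i with
        | zero =>
          rw [hσ0]
          exact ⟨hxM, hxB, fun j hj => absurd hj (Nat.not_lt_zero _)⟩
        | succ i =>
          obtain ⟨h1, h2, h3⟩ := hleg i (by omega)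
          rw [hσs]
          refine ⟨fun hm => h1 (mem_insert_of_mem hm), fun hm => h2 (mem_insert_of_mem hm), ?_⟩
          intro j hj
          cases j with
          | zero =>
            rw [hσ0]
            refine ⟨fun e => h1 (by rw [e]; exact mem_insert_self _ _),
              fun e => h2 (by rw [e]; exact mem_insert_self _ _)⟩
          | succ j =>
            rw [hσs]
            exact h3 j (by omega)
      · refine hcopy.mono ?_
        intro z hz
        rw [mem_union, mem_insert] at hz
        rw [mem_union]
        rcases hz with (rfl | hz) | hz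
        · right
          rw [mem_image]
          exact ⟨0, mem_range.2 (Nat.succ_pos _), hσ0 y⟩
        · exact Or.inl hz
        · right
          rw [mem_image] at hz ⊢
          obtain ⟨i, hi, rfl⟩ := hz
          exact ⟨i + 1, mem_range.2 (by have := mem_range.1 hi; omega), hσs y i⟩

/-- the image of the Hales-Jewett cube -/
lemma cube (n : ℕ) : ∃ C : ℕ, ∀ e : Fin n → ℕ,
    ∃ X : Finset ℕ, X.card ≤ C ∧
      ∀ M ⊆ X, Copy (univ.image e) M ∨ Copy (univ.image e) (X \ M) := by
  classical
  obtain ⟨ι, hι, H⟩ := Combinatorics.Line.exists_mono_in_high_dimension (Fin n) Bool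
  refine ⟨Fintype.card (ι → Fin n), fun e => ?_⟩
  let φ : (ι → Fin n) → ℕ := fun v => ∑ i, e (v i)
  refine ⟨univ.image φ, card_image_le.trans (by rw [card_univ]), fun M hM => ?_⟩
  obtain ⟨l, c, hl⟩ := H (fun v => decide (φ v ∈ M))
  -- the copy of `S` on the line
  have key : ∀ A : Finset ℕ, (∀ x : Fin n, φ (l x) ∈ A) → Copy (univ.image e) A := by
    intro A hA
    refine ⟨(univ.filter fun i => l.idxFun i = none).card, ?_,
      ((∑ i ∈ univ.filter (fun i => l.idxFun i ≠ none), ((l.idxFun i).elim 0 e : ℕ) : ℕ) : ℤ), ?_⟩
    · rw [Nat.one_le_iff_ne_zero, ← Nat.pos_iff_ne_zero, card_pos]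
      obtain ⟨i, hi⟩ := l.proper
      exact ⟨i, by simpa using hi⟩
    · intro s hs
      obtain ⟨x, -, rfl⟩ := mem_image.1 hs
      refine ⟨φ (l x), hA x, ?_⟩
      have : φ (l x) = (univ.filter fun i => l.idxFun i = none).card * e x +
          ∑ i ∈ univ.filter (fun i => l.idxFun i ≠ none), ((l.idxFun i).elim 0 e : ℕ) := by
        show ∑ i, e (l x i) = _
        rw [← sum_filter_add_sum_filter_not univ (fun i => l.idxFun i = none)]
        congr 1
        · rw [sum_congr rfl (g := fun _ => e x), sum_const, smul_eq_mul]
          intro i hi
          rw [mem_filter] at hi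
          rw [l.apply_none x i hi.2]
        · refine sum_congr rfl fun i hi => ?_
          rw [mem_filter] at hi
          obtain ⟨y, hy⟩ := Option.ne_none_iff_exists'.1 hi.2
          rw [l.apply_some hy, hy]
          rfl
      rw [this]
      push_cast
      ring
  cases c with
  | true =>
    left
    refine key M fun x => ?_
    simpa using hl x
  | false =>
    right
    refine key _ fun x => ?_
    rw [mem_sdiff]
    exact ⟨mem_image_of_mem _ (mem_univ _), by simpa using hl x⟩

/-- There is a function `C` such that Maker has a `C n`-move strategy for every set `S` of `n` natural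
numbers. -/
theorem result : ∃ C : ℕ → ℕ, ∀ n : ℕ, ∀ S : Finset ℕ, S.card = n → HasStrategy S (C n) := by
  classical
  choose C H using cube
  refine ⟨C, fun n S hS => ?_⟩
  obtain ⟨X, hXC, hX⟩ := H n (fun i => S.orderEmbOfFin hS i)
  have hS' : univ.image (fun i => S.orderEmbOfFin hS i) = S := by
    ext z
    have := congrArg (z ∈ ·) (S.range_orderEmbOfFin hS)
    simpa using this
  rw [hS'] at hX
  have h1 : F S X X.card true ∅ ∅ := first hX
  have h2 : W S (C n) ∅ ∅ :=
    F_to_W X.card (C n) hXC ∅ ∅ ∅ (by simp [free]) (by simp) (subset_refl _) h1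
  obtain ⟨σ, hσ⟩ := W_strategy (C n) ∅ ∅ h2
  refine ⟨σ, fun y hy => ?_⟩
  obtain ⟨k, hk, hleg, hcopy⟩ := hσ y (fun i hi =>
    ⟨notMem_empty _, notMem_empty _, (hy i hi).1, (hy i hi).2⟩)
  refine ⟨k, hk, fun i hi j hj => (hleg i hi).2.2 j hj, ?_⟩
  simpa using hcopy

end Pool.Agent.Results.MP_3e1131_co.BoundedMaker
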